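import Pool.Agent.U797.GC.Cut

set_option autoImplicit false

/-!
# Flat edges: classes of vertices of comparable degrees; the main theorem in form version
-/

namespace Pool.Agent.U797.GC

open Finset Pool.Agent.Y394.AT Pool.Agent.R50.MC

/-- the conclusion of the theorem on nearly regular graphs -/
def NR (m k : ℕ) (T : SimpleGraph (Fin (m + 1))) (K c : ℝ) : Prop :=
  ∀ (V : Type) [Fintype V] (G : SimpleGraph V) (d : ℝ), Nonempty V → 0 < d →
      (∀ v, ((nb G v).card : ℝ) ≤ d) → d * Fintype.card V ≤ K * ∑ v, ((nb G v).card : ℝ) →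
      G.CliqueFree (k + 1) → IsEmpty (T ↪g G) →
      ∃ s : V → ℝ, (∀ v, s v = 1 ∨ s v = -1) ∧ q G s ≤ -(c * d * Fintype.card V)

variable {V : Type} [Fintype V] {G : SimpleGraph V}

open Classical in
theorem class_sg {m k : ℕ} {T : SimpleGraph (Fin (m + 1))} {K c : ℝ} (hc : 0 < c)
    (H : NR m k T K c) (hfree : G.CliqueFree (k + 1)) (hemp : IsEmpty (T ↪g G)) (A : Finset V)
    (D : ℝ) (hD : 0 < D) (hdeg : ∀ v ∈ A, dg G v ≤ D)
    (hvol : D * A.card ≤ K * ∑ v ∈ A, ((nb G v ∩ A).card : ℝ)) :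
    Sg G A (-(c * ∑ v ∈ A, ((nb G v ∩ A).card : ℝ))) := by
  rcases A.eq_empty_or_nonempty with rfl | ⟨a, ha⟩
  · rw [sum_empty, mul_zero, neg_zero]
    exact sg_empty
  have hsum : ∑ x : {x // x ∈ A}, ((nb (ind G A) x).card : ℝ) =
      ∑ v ∈ A, ((nb G v ∩ A).card : ℝ) := by
    rw [← sum_coe_sort A (fun v => ((nb G v ∩ A).card : ℝ))]
    refine sum_congr rfl fun x _ => ?_
    rw [nb_ind]
  have hle : ∑ v ∈ A, ((nb G v ∩ A).card : ℝ) ≤ D * A.card := by
    have h1 : ∀ v ∈ A, ((nb G v ∩ A).card : ℝ) ≤ D := by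
      intro v hv
      refine le_trans ?_ (hdeg v hv)
      unfold dg
      exact_mod_cast card_le_card inter_subset_left
    refine (sum_le_sum h1).trans ?_
    rw [sum_const, nsmul_eq_mul, mul_comm]
  obtain ⟨s, hs1, hs2⟩ := H {x // x ∈ A} (ind G A) D ⟨⟨a, ha⟩⟩ hD
    (by
      intro x
      rw [nb_ind]
      refine le_trans ?_ (hdeg x.1 x.2)
      unfold dg
      exact_mod_cast card_le_card inter_subset_left)
    (by
      rw [hsum, Fintype.card_coe]
      exact hvol)
    (hfree.comap ⟨(indEmb G A).toCopy⟩)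
    ⟨fun e => hemp.false ((indEmb G A).comp e)⟩
  rw [Fintype.card_coe] at hs2
  refine ⟨ext0 A s, ?_, ?_, ?_⟩
  · intro v hv
    have h1 := ext0_of A s ⟨v, hv⟩
    rw [h1]
    exact hs1 _
  · intro v hv
    exact ext0_not A s hv
  · rw [q_ext]
    refine hs2.trans ?_
    rw [mul_assoc]
    exact neg_le_neg (mul_le_mul_of_nonneg_left hle hc.le)

open Classical in
/-- the case of many flat edges -/
theorem flat_case {m k : ℕ} {T : SimpleGraph (Fin (m + 1))} {K c B β : ℝ} (hc : 0 < c)
    (hβ : 0 < β) (hK : K = 4 * B ^ 2 / β)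
    (H : NR m k T K c) (hfree : G.CliqueFree (k + 1)) (hemp : IsEmpty (T ↪g G))
    (cls : V → ℕ) (D : ℕ → ℝ) (hD : ∀ i, 0 < D i)
    (hD1 : ∀ v, 0 < dg G v → dg G v ≤ D (cls v))
    (hD2 : ∀ v, 0 < dg G v → D (cls v) ≤ B ^ 2 * dg G v)
    (hS : β / 2 * ∑ v, dg G v ≤ S G (fun v w => cls v = cls w)) :
    Sg G (univ : Finset V) (-(c * (β / 4) * ∑ v, dg G v)) := by
  obtain ⟨A, hA⟩ : ∃ A : ℕ → Finset V, A = fun i => univ.filter (fun v => cls v = i ∧ 0 < dg G v) :=
    ⟨_, rfl⟩
  have hmA : ∀ i v, v ∈ A i ↔ cls v = i ∧ 0 < dg G v := by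
    intro i v
    rw [hA]
    simp
  obtain ⟨I, hI⟩ : ∃ I : Finset ℕ, I = (univ : Finset V).image cls := ⟨_, rfl⟩
  -- sums over classes
  have hfib : ∀ g : V → ℝ, (∀ v, dg G v = 0 → g v = 0) → ∑ v, g v = ∑ i ∈ I, ∑ v ∈ A i, g v := by
    intro g hg
    rw [← sum_fiberwise_of_maps_to (s := univ) (t := I) (g := cls) (f := g)
      (fun v _ => by rw [hI]; exact mem_image_of_mem cls (mem_univ v))]
    refine sum_congr rfl fun i _ => ?_
    symm
    refine sum_subset ?_ ?_
    · intro v hv
      rw [mem_filter]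
      exact ⟨mem_univ v, ((hmA i v).1 hv).1⟩
    · intro v hv hv'
      rw [mem_filter] at hv
      apply hg
      refine le_antisymm (not_lt.1 fun h => hv' ((hmA i v).2 ⟨hv.2, h⟩)) (dg_nonneg v)
  have hvolsum := hfib (fun v => dg G v) (fun v h => h)
  have hWsum : S G (fun v w => cls v = cls w) = ∑ i ∈ I, ∑ v ∈ A i, ((nb G v ∩ A i).card : ℝ) := by
    have h1 : S G (fun v w => cls v = cls w) = ∑ v, ((nb G v ∩ A (cls v)).card : ℝ) := by
      unfold S
      refine sum_congr rfl fun v _ => ?_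
      rw [card_eq_I1]
      refine sum_congr rfl fun w _ => ?_
      congr 1
      rw [mem_inter, mem_nb, hmA]
      apply propext
      constructor
      · rintro ⟨h1, h2⟩
        exact ⟨h1, h2.symm, dg_pos_of_adj h1.symm⟩
      · rintro ⟨h1, h2, _⟩
        exact ⟨h1, h2.symm⟩
    rw [h1, hfib]
    · refine sum_congr rfl fun i _ => sum_congr rfl fun v hv => ?_
      rw [((hmA i v).1 hv).1]
    · intro v hv
      have h2 : nb G v = ∅ := by
        rw [← card_eq_zero]
        unfold dg at hv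
        exact_mod_cast hv
      rw [h2]
      simp
  -- one class
  have hone : ∀ i ∈ I, Sg G (A i)
      (-(c * (∑ v ∈ A i, ((nb G v ∩ A i).card : ℝ) - β / 4 * ∑ v ∈ A i, dg G v))) := by
    intro i _
    by_cases hgood : β / 4 * ∑ v ∈ A i, dg G v ≤ ∑ v ∈ A i, ((nb G v ∩ A i).card : ℝ)
    · refine (class_sg hc H hfree hemp (A i) (D i) (hD i) ?_ ?_).mono ?_
      · intro v hv
        have h1 := (hmA i v).1 hv
        rw [← h1.1]
        exact hD1 v h1.2
      · have h1 : D i * (A i).card ≤ B ^ 2 * ∑ v ∈ A i, dg G v := by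
          rw [mul_comm, ← nsmul_eq_mul, ← sum_const, mul_sum]
          refine sum_le_sum fun v hv => ?_
          have h1 := (hmA i v).1 hv
          rw [← h1.1]
          exact hD2 v h1.2
        refine h1.trans ?_
        rw [hK]
        have h2 : B ^ 2 * ∑ v ∈ A i, dg G v = 4 * B ^ 2 / β * (β / 4 * ∑ v ∈ A i, dg G v) := by
          field_simp
        rw [h2]
        exact mul_le_mul_of_nonneg_left hgood (by positivity)
      · have h1 : 0 ≤ β / 4 * ∑ v ∈ A i, dg G v :=
          mul_nonneg (by positivity) (sum_nonneg fun v _ => dg_nonneg v)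
        nlinarith
    · rw [not_le] at hgood
      refine (sg_zero (A i)).mono ?_
      nlinarith
  have hall := sg_biUnion I A _ (by
    intro i _ j _ hij
    rw [disjoint_left]
    intro v hv hv'
    exact hij (((hmA i v).1 hv).1.symm.trans ((hmA j v).1 hv').1)) hone
  refine (Sg.univ hall).mono ?_
  rw [sum_neg_distrib, ← mul_sum, sum_sub_distrib, ← mul_sum, ← hWsum, ← hvolsum]
  nlinarith

open Classical in
/-- **The main theorem in form version, all graphs.** -/
theorem main_all (m k : ℕ) (T : SimpleGraph (Fin (m + 1))) (hT : T.IsTree) :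
    ∃ c : ℝ, 0 < c ∧ ∀ (V : Type) [Fintype V] (G : SimpleGraph V), G.CliqueFree (k + 1) →
      IsEmpty (T ↪g G) → Sg G (univ : Finset V) (-(c * ∑ v, dg G v)) := by
  obtain ⟨t, f, hf1, hf2⟩ := BT.exists_of_tree m (Fin (m + 1)) T hT (Fintype.card_fin _)
  obtain ⟨r, hr⟩ : ∃ r : ℕ, r = max (BT.ht t) 1 := ⟨_, rfl⟩
  have hr1 : 1 ≤ r := by rw [hr]; exact le_max_right _ _
  have hr1' : (1 : ℝ) ≤ r := by exact_mod_cast hr1
  have hr2 : (1 : ℝ) ≤ (r : ℝ) ^ 2 := by nlinarith
  obtain ⟨γ, hγ⟩ : ∃ γ : ℝ, γ = 1 / (12 * (r : ℝ) ^ 2) := ⟨_, rfl⟩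
  obtain ⟨β, hβ⟩ : ∃ β : ℝ, β = 1 / (6 * (r : ℝ) ^ 2) := ⟨_, rfl⟩
  have hγ0 : 0 < γ := by rw [hγ]; positivity
  have hβ0 : 0 < β := by rw [hβ]; positivity
  have hγ1 : γ ≤ 1 := by
    rw [hγ, div_le_one (by positivity)]
    nlinarith
  have hβ1 : β ≤ 1 := by
    rw [hβ, div_le_one (by positivity)]
    nlinarith
  obtain ⟨B₀, hB₀, hno⟩ := no_copy hγ0 hγ1 t
  obtain ⟨b, hb⟩ : ∃ b : ℕ, b = max ⌈B₀⌉₊ 2 := ⟨_, rfl⟩
  have hb2 : 2 ≤ b := by rw [hb]; exact le_max_right _ _
  have hbB : B₀ ≤ (b : ℝ) := by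
    refine (Nat.le_ceil B₀).trans ?_
    rw [hb]
    exact_mod_cast le_max_left _ _
  have hb2' : (2 : ℝ) ≤ b := by exact_mod_cast hb2
  obtain ⟨K, hK⟩ : ∃ K : ℝ, K = 4 * (b : ℝ) ^ 2 / β := ⟨_, rfl⟩
  have hK1 : 1 ≤ K := by
    rw [hK, le_div_iff₀ hβ0]
    nlinarith
  obtain ⟨c, hc, H⟩ := main_form m k T hT K hK1
  refine ⟨min (1 / (3 * (r : ℝ) ^ 2)) (c * (β / 4)), lt_min (by positivity) (by positivity), ?_⟩
  intro V _ G hfree hemp
  obtain ⟨W, hW⟩ : ∃ W : ℝ, W = ∑ v, dg G v := ⟨_, rfl⟩
  have hW0 : 0 ≤ W := by rw [hW]; exact sum_nonneg fun v _ => dg_nonneg v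
  by_cases hfl : S G (fun v w => dg G v < b * dg G w ∧ dg G w < b * dg G v) < β * ∑ v, dg G v
  · -- few flat edges
    have hU : ∀ x, 0 < dg G x → x ∉ U G b γ (BT.ht t) := by
      apply hno b hbB V G
      rintro ⟨g, hg1, hg2⟩
      refine hemp.false ⟨⟨fun a => g (f a), fun a a' h => hf1 (hg1 h)⟩, ?_⟩
      intro a a'
      change G.Adj (g (f a)) (g (f a')) ↔ T.Adj a a'
      rw [hf2, hg2]
    obtain ⟨col, hcol1, hcol2⟩ := colour (G := G) (B := b) (γ := γ) (BT.ht t) hU
    have h1 := steep_case (G := G) (B := b) (γ := γ) (θ := 1 / (3 * (r : ℝ) ^ 2)) r hr1 col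
      (fun v => by rw [hr]; exact hcol1 v) le_rfl hcol2 (by
        have h2 : 1 / (3 * (r : ℝ) ^ 2) = β + 2 * γ := by
          rw [hβ, hγ]
          field_simp
          norm_num
        rw [h2, add_mul]
        linarith)
    refine h1.mono (neg_le_neg ?_)
    apply mul_le_mul_of_nonneg_right (min_le_left _ _)
    rw [← hW]
    exact hW0
  · rw [not_lt] at hfl
    have hfinish : ∀ j : ℕ, j ≤ 1 →
        β / 2 * ∑ v, dg G v ≤ S G (fun v w => (Nat.log b (nb G v).card + j) / 2 =
          (Nat.log b (nb G w).card + j) / 2) →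
        Sg G (univ : Finset V) (-(c * (β / 4) * ∑ v, dg G v)) := by
      intro j hj hS
      refine flat_case (B := b) hc hβ0 hK H hfree hemp
        (fun v => (Nat.log b (nb G v).card + j) / 2) (fun i => (b : ℝ) ^ (2 * i + 2 - j))
        (fun i => by positivity) ?_ ?_ hS
      · intro v hv
        have h1 : (nb G v).card < b ^ (Nat.log b (nb G v).card + 1) :=
          Nat.lt_pow_succ_log_self (by omega) _
        have h2 : b ^ (Nat.log b (nb G v).card + 1) ≤
            b ^ (2 * ((Nat.log b (nb G v).card + j) / 2) + 2 - j) :=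
          Nat.pow_le_pow_right (by omega) (by omega)
        unfold dg
        exact_mod_cast (h1.trans_le h2).le
      · intro v hv
        have h0 : (nb G v).card ≠ 0 := by
          intro h
          unfold dg at hv
          rw [h] at hv
          simp at hv
        have h1 : b ^ Nat.log b (nb G v).card ≤ (nb G v).card := Nat.pow_log_le_self b h0
        have h2 : b ^ (2 * ((Nat.log b (nb G v).card + j) / 2) + 2 - j) ≤
            b ^ 2 * b ^ Nat.log b (nb G v).card := by
          rw [← pow_add]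
          exact Nat.pow_le_pow_right (by omega) (by omega)
        have h3 := h2.trans (Nat.mul_le_mul_left (b ^ 2) h1)
        unfold dg
        exact_mod_cast h3
    have hsplit : S G (fun v w => dg G v < b * dg G w ∧ dg G w < b * dg G v) ≤
        S G (fun v w => (Nat.log b (nb G v).card + 0) / 2 = (Nat.log b (nb G w).card + 0) / 2) +
        S G (fun v w => (Nat.log b (nb G v).card + 1) / 2 = (Nat.log b (nb G w).card + 1) / 2) := by
      unfold S
      rw [← sum_add_distrib]
      refine sum_le_sum fun v _ => ?_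
      rw [← sum_add_distrib]
      refine sum_le_sum fun w _ => ?_
      have g1 := I1_nonneg (G.Adj v w ∧
        (Nat.log b (nb G v).card + 0) / 2 = (Nat.log b (nb G w).card + 0) / 2)
      have g2 := I1_nonneg (G.Adj v w ∧
        (Nat.log b (nb G v).card + 1) / 2 = (Nat.log b (nb G w).card + 1) / 2)
      by_cases h : G.Adj v w ∧ dg G v < b * dg G w ∧ dg G w < b * dg G v
      · rw [I1_pos h]
        obtain ⟨h1, h2, h3⟩ := h
        have hlog : ∀ x y : V, 0 < dg G x → dg G x < b * dg G y →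
            Nat.log b (nb G x).card ≤ Nat.log b (nb G y).card + 1 := by
          intro x y hx hxy
          have h0 : (nb G x).card ≠ 0 := by
            intro h
            unfold dg at hx
            rw [h] at hx
            simp at hx
          have k1 : b ^ Nat.log b (nb G x).card ≤ (nb G x).card := Nat.pow_log_le_self b h0
          have k2 : (nb G x).card < b * (nb G y).card := by
            unfold dg at hxy
            exact_mod_cast hxy
          have k3 : (nb G y).card < b ^ (Nat.log b (nb G y).card + 1) :=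
            Nat.lt_pow_succ_log_self (by omega) _
          have k4 : b ^ Nat.log b (nb G x).card < b ^ (Nat.log b (nb G y).card + 2) := by
            calc b ^ Nat.log b (nb G x).card ≤ (nb G x).card := k1
              _ < b * (nb G y).card := k2
              _ ≤ b * b ^ (Nat.log b (nb G y).card + 1) := Nat.mul_le_mul_left b k3.le
              _ = b ^ (Nat.log b (nb G y).card + 2) := by ring
          have k5 := (Nat.pow_lt_pow_iff_right (by omega)).1 k4
          omega
        have l1 := hlog v w (dg_pos_of_adj h1) h2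
        have l2 := hlog w v (dg_pos_of_adj h1.symm) h3
        by_cases e : (Nat.log b (nb G v).card + 0) / 2 = (Nat.log b (nb G w).card + 0) / 2
        · have k : I1 (G.Adj v w ∧
              (Nat.log b (nb G v).card + 0) / 2 = (Nat.log b (nb G w).card + 0) / 2) = 1 :=
            I1_pos ⟨h1, e⟩
          exact (le_add_of_nonneg_right g2).trans' k.ge
        · have e' : (Nat.log b (nb G v).card + 1) / 2 = (Nat.log b (nb G w).card + 1) / 2 := by
            omega
          have k : I1 (G.Adj v w ∧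
              (Nat.log b (nb G v).card + 1) / 2 = (Nat.log b (nb G w).card + 1) / 2) = 1 :=
            I1_pos ⟨h1, e'⟩
          exact (le_add_of_nonneg_left g1).trans' k.ge
      · rw [I1_neg h]
        linarith
    have hfin : Sg G (univ : Finset V) (-(c * (β / 4) * ∑ v, dg G v)) := by
      by_cases h0 : β / 2 * ∑ v, dg G v ≤
        S G (fun v w => (Nat.log b (nb G v).card + 0) / 2 = (Nat.log b (nb G w).card + 0) / 2)
      · exact hfinish 0 (by omega) h0
      · refine hfinish 1 le_rfl ?_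
        rw [not_le] at h0
        linarith
    refine hfin.mono (neg_le_neg ?_)
    apply mul_le_mul_of_nonneg_right (min_le_right _ _)
    rw [← hW]
    exact hW0

end Pool.Agent.U797.GC
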