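import Mathlib

set_option autoImplicit false

/-!
# Rooted trees encoded as binary trees (left child, right sibling)

`graft a b` is the rooted tree `a` together with the rooted tree `b`, whose root is a new child of the
root of `a`. Every finite tree is an induced subgraph of the tree of such an expression.
-/

namespace Pool.Agent.U797.GC

/-- rooted trees, encoded as binary trees -/
inductive BT : Type
  | nil : BT
  | graft : BT → BT → BT

namespace BT

/-- the nodes -/
def Nd : BT → Type
  | nil => Unit
  | graft a b => Nd a ⊕ Nd b

/-- the root -/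
def root : (t : BT) → Nd t
  | nil => ()
  | graft a _ => Sum.inl (root a)

/-- adjacency -/
def adj : (t : BT) → Nd t → Nd t → Prop
  | nil, _, _ => False
  | graft a _, Sum.inl x, Sum.inl y => adj a x y
  | graft _ b, Sum.inr x, Sum.inr y => adj b x y
  | graft a b, Sum.inl x, Sum.inr y => x = root a ∧ y = root b
  | graft a b, Sum.inr x, Sum.inl y => y = root a ∧ x = root b

/-- the distance from the root -/
def depth : (t : BT) → Nd t → ℕ
  | nil, _ => 0
  | graft a _, Sum.inl x => depth a x
  | graft _ b, Sum.inr y => depth b y + 1

/-- the height -/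
def ht : BT → ℕ
  | nil => 0
  | graft a b => max (ht a) (ht b + 1)

/-- the nodes form a finite type -/
def fin : (t : BT) → Fintype (Nd t)
  | nil => inferInstanceAs (Fintype Unit)
  | graft a b => @instFintypeSum (Nd a) (Nd b) (fin a) (fin b)

instance (t : BT) : Fintype (Nd t) := fin t

/-- equality of nodes is decidable -/
def deq : (t : BT) → DecidableEq (Nd t)
  | nil => inferInstanceAs (DecidableEq Unit)
  | graft a b => @instDecidableEqSum (Nd a) (Nd b) (deq a) (deq b)

instance (t : BT) : DecidableEq (Nd t) := deq t

theorem depth_root (t : BT) : depth t (root t) = 0 := by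
  induction t with
  | nil => rfl
  | graft a b iha _ => exact iha

theorem depth_eq_zero : ∀ (t : BT) (x : Nd t), depth t x = 0 → x = root t := by
  intro t
  induction t with
  | nil => intro x _; rfl
  | graft a b iha _ =>
    rintro (x | y) h
    · exact congrArg Sum.inl (iha x h)
    · exact absurd h (Nat.succ_ne_zero _)

theorem depth_le : ∀ (t : BT) (x : Nd t), depth t x ≤ ht t := by
  intro t
  induction t with
  | nil => intro x; exact le_rfl
  | graft a b iha ihb =>
    rintro (x | y)
    · exact (iha x).trans (le_max_left _ _)
    · exact (Nat.succ_le_succ (ihb y)).trans (le_max_right _ _)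

theorem adj_symm : ∀ (t : BT) (x y : Nd t), adj t x y → adj t y x := by
  intro t
  induction t with
  | nil => intro x y h; exact h
  | graft a b iha ihb =>
    rintro (x | x) (y | y) h
    · exact iha x y h
    · exact h
    · exact h
    · exact ihb x y h

/-- a new leaf at the node `x` -/
def addLeaf : (t : BT) → Nd t → BT
  | nil, _ => graft nil nil
  | graft a b, Sum.inl x => graft (addLeaf a x) b
  | graft a b, Sum.inr y => graft a (addLeaf b y)

theorem addLeaf_spec : ∀ (t : BT) (x : Nd t), ∃ (g : Nd t → Nd (addLeaf t x))
    (l : Nd (addLeaf t x)), Function.Injective g ∧ g (root t) = root (addLeaf t x) ∧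
      (∀ y z, adj (addLeaf t x) (g y) (g z) ↔ adj t y z) ∧ (∀ y, g y ≠ l) ∧
      ∀ y, adj (addLeaf t x) l (g y) ↔ y = x := by
  intro t
  induction t with
  | nil =>
    intro x
    refine ⟨fun _ => Sum.inl (), Sum.inr (), fun _ _ _ => rfl, rfl, ?_, ?_, ?_⟩
    · intro y z
      exact Iff.rfl
    · intro y h
      cases h
    · intro y
      exact ⟨fun _ => rfl, fun _ => ⟨rfl, rfl⟩⟩
  | graft a b iha ihb =>
    rintro (x | x)
    · obtain ⟨g, l, h1, h2, h3, h4, h5⟩ := iha x
      refine ⟨Sum.map g id, Sum.inl l, ?_, ?_, ?_, ?_, ?_⟩
      · exact Function.Injective.sumMap h1 Function.injective_id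
      · exact congrArg Sum.inl h2
      · rintro (y | y) (z | z)
        · exact h3 y z
        · constructor
          · rintro ⟨e1, e2⟩
            exact ⟨h1 (e1.trans h2.symm), e2⟩
          · rintro ⟨e1, e2⟩
            exact ⟨(congrArg g e1).trans h2, e2⟩
        · constructor
          · rintro ⟨e1, e2⟩
            exact ⟨h1 (e1.trans h2.symm), e2⟩
          · rintro ⟨e1, e2⟩
            exact ⟨(congrArg g e1).trans h2, e2⟩
        · exact Iff.rfl
      · rintro (y | y) h
        · exact h4 y (Sum.inl_injective h)
        · cases h
      · rintro (y | y)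
        · constructor
          · intro h
            exact congrArg Sum.inl ((h5 y).1 h)
          · intro h
            exact (h5 y).2 (Sum.inl_injective h)
        · constructor
          · rintro ⟨e1, _⟩
            exact absurd (h2.trans e1.symm) (h4 _)
          · intro h
            cases h
    · obtain ⟨g, l, h1, h2, h3, h4, h5⟩ := ihb x
      refine ⟨Sum.map id g, Sum.inr l, ?_, ?_, ?_, ?_, ?_⟩
      · exact Function.Injective.sumMap Function.injective_id h1
      · exact congrArg Sum.inl rfl
      · rintro (y | y) (z | z)
        · exact Iff.rfl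
        · constructor
          · rintro ⟨e1, e2⟩
            exact ⟨e1, h1 (e2.trans h2.symm)⟩
          · rintro ⟨e1, e2⟩
            exact ⟨e1, (congrArg g e2).trans h2⟩
        · constructor
          · rintro ⟨e1, e2⟩
            exact ⟨e1, h1 (e2.trans h2.symm)⟩
          · rintro ⟨e1, e2⟩
            exact ⟨e1, (congrArg g e2).trans h2⟩
        · exact h3 y z
      · rintro (y | y) h
        · cases h
        · exact h4 y (Sum.inr_injective h)
      · rintro (y | y)
        · constructor
          · rintro ⟨_, e2⟩
            exact absurd (h2.trans e2.symm) (h4 _)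
          · intro h
            cases h
        · constructor
          · intro h
            exact congrArg Sum.inr ((h5 y).1 h)
          · intro h
            exact (h5 y).2 (Sum.inr_injective h)

/-- every finite tree is an induced subgraph of the tree of an expression -/
theorem exists_of_tree : ∀ n : ℕ, ∀ (α : Type) [Fintype α] [DecidableEq α] (T : SimpleGraph α),
    T.IsTree → Fintype.card α = n + 1 →
    ∃ (t : BT) (f : α → Nd t), Function.Injective f ∧ ∀ a b, T.Adj a b ↔ adj t (f a) (f b) := by
  intro n
  induction n with
  | zero =>
    intro α _ _ T hT hV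
    have hsub : Subsingleton α := Fintype.card_le_one_iff_subsingleton.1 (by omega)
    refine ⟨nil, fun _ => (), fun v w _ => Subsingleton.elim v w, ?_⟩
    intro a b
    rw [Subsingleton.elim a b]
    exact ⟨fun h => (T.irrefl h).elim, fun h => h.elim⟩
  | succ n ih =>
    intro α _ _ T hT hV
    classical
    have hnt : Nontrivial α := by
      rw [← Fintype.one_lt_card_iff_nontrivial]
      omega
    obtain ⟨l, hl⟩ := hT.exists_vert_degree_one_of_nontrivial
    have hconn := hT.connected.induce_compl_singleton_of_degree_eq_one hl
    have hT' : (T.induce ({l}ᶜ : Set α)).IsTree := ⟨hconn, hT.isAcyclic.induce _⟩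
    obtain ⟨u, hu, huu⟩ := SimpleGraph.degree_eq_one_iff_existsUnique_adj.1 hl
    have hu' : u ∈ ({l}ᶜ : Set α) := fun h => hu.ne h.symm
    have hcard : Fintype.card ({l}ᶜ : Set α) = n + 1 := by
      rw [Fintype.card_compl_set, hV]
      simp
    obtain ⟨t, f, hf1, hf2⟩ := ih _ (T.induce ({l}ᶜ : Set α)) hT' hcard
    have hmem : ∀ v, v ≠ l → v ∈ ({l}ᶜ : Set α) := fun v h => h
    obtain ⟨g, y, h1, _, h3, h4, h5⟩ := addLeaf_spec t (f ⟨u, hu'⟩)
    let F : α → Nd (addLeaf t (f ⟨u, hu'⟩)) := fun v => if h : v = l then y else g (f ⟨v, hmem v h⟩)
    have hFl : F l = y := by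
      simp only [F]
      rw [dif_pos trivial]
    have hF : ∀ v (h : v ≠ l), F v = g (f ⟨v, hmem v h⟩) := by
      intro v h
      simp only [F]
      rw [dif_neg h]
    have hlw : ∀ w, w ≠ l → (T.Adj l w ↔ adj _ (F l) (F w)) := by
      intro w hw
      rw [hFl, hF w hw, h5]
      constructor
      · intro h
        congr 1
        exact Subtype.ext (huu w h)
      · intro h
        have h6 := congrArg Subtype.val (hf1 h)
        change w = u at h6
        rw [h6]
        exact hu
    refine ⟨_, F, ?_, ?_⟩
    · intro v w hvw
      by_cases hv : v = l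
      · by_cases hw : w = l
        · rw [hv, hw]
        · rw [hv, hFl, hF w hw] at hvw
          exact absurd hvw.symm (h4 _)
      · by_cases hw : w = l
        · rw [hw, hFl, hF v hv] at hvw
          exact absurd hvw (h4 _)
        · rw [hF v hv, hF w hw] at hvw
          exact congrArg Subtype.val (hf1 (h1 hvw))
    · intro a b
      by_cases ha : a = l
      · by_cases hb : b = l
        · rw [ha, hb]
          refine ⟨fun h => (T.irrefl h).elim, fun h => ?_⟩
          exfalso
          have : ∀ (t : BT) (x : Nd t), ¬ adj t x x := by
            intro t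
            induction t with
            | nil => intro x h; exact h
            | graft a b iha ihb =>
              rintro (x | x) h
              · exact iha x h
              · exact ihb x h
          exact this _ _ h
        · rw [ha]
          exact hlw b hb
      · by_cases hb : b = l
        · rw [hb, T.adj_comm]
          exact (hlw a ha).trans ⟨adj_symm _ _ _, adj_symm _ _ _⟩
        · rw [hF a ha, hF b hb, h3, ← hf2]
          rfl

end BT

end Pool.Agent.U797.GC
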