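import Pool.Agent.U797.GC.Down

set_option autoImplicit false

/-!
# Random induced copies of a rooted tree, all edges going down to much smaller degrees
-/

namespace Pool.Agent.U797.GC

open Finset Pool.Agent.Y394.AT BT

variable {V : Type} [Fintype V]

/-- `f` is an induced copy of `t` with root `x`, with quickly decreasing degrees -/
structure Copy (G : SimpleGraph V) (B : ℝ) (x : V) (t : BT) (f : Nd t → V) : Prop where
  root : f (root t) = x
  inj : Function.Injective f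
  adj : ∀ a b, adj t a b ↔ G.Adj (f a) (f b)
  deg : ∀ a, B ^ depth t a * dg G (f a) ≤ dg G x
  pos : ∀ a, 0 < dg G (f a)

/-- there is a probability measure on the copies of `t` with root `x` whose one-point marginals are
bounded by the walk down -/
structure Mu (G : SimpleGraph V) (B γ C : ℝ) (x : V) (t : BT) (μ : (Nd t → V) → ℝ) : Prop where
  nonneg : ∀ f, 0 ≤ μ f
  sum : ∑ f, μ f = 1
  copy : ∀ f, μ f ≠ 0 → Copy G B x t f
  dom : ∀ (a : Nd t) (φ : V → ℝ), (∀ v, 0 ≤ φ v) →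
    ∑ f, μ f * φ (f a) ≤ C * (Q G B γ)^[depth t a] φ x

theorem mu_nil (G : SimpleGraph V) (B γ : ℝ) (x : V) (hx : 0 < dg G x) :
    ∃ μ, Mu G B γ 1 x BT.nil μ := by
  classical
  refine ⟨fun f => if f = fun _ => x then 1 else 0, ?_, ?_, ?_, ?_⟩
  · intro f
    split_ifs <;> norm_num
  · rw [sum_ite_eq' univ (fun _ => x) (fun _ => (1 : ℝ)), if_pos (mem_univ _)]
  · intro f hf
    have hf' : f = fun _ => x := by
      by_contra h
      exact hf (if_neg h)
    subst hf'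
    refine ⟨rfl, fun a b _ => rfl, ?_, ?_, ?_⟩
    · intro a b
      exact ⟨fun h => h.elim, fun h => (G.irrefl h).elim⟩
    · intro a
      change B ^ 0 * dg G x ≤ dg G x
      rw [pow_zero, one_mul]
    · intro a
      exact hx
  · intro a φ hφ
    have h1 : ∀ f : Nd BT.nil → V, (if f = fun _ => x then (1 : ℝ) else 0) * φ (f a) =
        if f = fun _ => x then φ x else 0 := by
      intro f
      split_ifs with h
      · rw [h, one_mul]
      · rw [zero_mul]
    rw [sum_congr rfl (fun f _ => h1 f), sum_ite_eq' univ (fun _ => x) (fun _ => φ x),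
      if_pos (mem_univ _), one_mul]
    exact le_rfl

/-- choosing a good child and a copy of `t` there -/
theorem child {G : SimpleGraph V} {B γ C : ℝ} (hγ : 0 < γ) (hC : 0 ≤ C) (x : V) (t : BT)
    (hx : 0 < dg G x) (S : Finset V) (hS : S ⊆ Dn G B x) (hSc : γ * dg G x ≤ S.card)
    (h : ∀ y ∈ S, ∃ μ, Mu G B γ C y t μ) :
    ∃ ν : (Nd t → V) → ℝ, (∀ f, 0 ≤ ν f) ∧ ∑ f, ν f = 1 ∧
      (∀ f, ν f ≠ 0 → ∃ y ∈ S, Copy G B y t f) ∧
      ∀ (a : Nd t) (φ : V → ℝ), (∀ v, 0 ≤ φ v) →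
        ∑ f, ν f * φ (f a) ≤ C * (Q G B γ)^[depth t a + 1] φ x := by
  classical
  have h' : ∀ y : V, ∃ μ : (Nd t → V) → ℝ, y ∈ S → Mu G B γ C y t μ := by
    intro y
    by_cases hy : y ∈ S
    · obtain ⟨μ, hμ⟩ := h y hy
      exact ⟨μ, fun _ => hμ⟩
    · exact ⟨fun _ => 0, fun h => absurd h hy⟩
  choose m hm using h'
  have hn : 0 < (S.card : ℝ) := lt_of_lt_of_le (mul_pos hγ hx) hSc
  refine ⟨fun f => (∑ y ∈ S, m y f) / S.card, ?_, ?_, ?_, ?_⟩
  · intro f
    exact div_nonneg (sum_nonneg fun y hy => (hm y hy).nonneg f) hn.le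
  · rw [← sum_div, sum_comm, sum_congr rfl (fun y hy => (hm y hy).sum), sum_const, nsmul_eq_mul,
      mul_one, div_self hn.ne']
  · intro f hf
    have h1 : ∑ y ∈ S, m y f ≠ 0 := by
      intro h0
      apply hf
      dsimp only
      rw [h0, zero_div]
    obtain ⟨y, hy, hne⟩ := exists_ne_zero_of_sum_ne_zero h1
    exact ⟨y, hy, (hm y hy).copy f hne⟩
  · intro a φ hφ
    have h1 : ∑ f, (∑ y ∈ S, m y f) / S.card * φ (f a) =
        (∑ y ∈ S, ∑ f, m y f * φ (f a)) / S.card := by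
      rw [sum_comm, sum_div]
      refine sum_congr rfl fun f _ => ?_
      rw [div_mul_eq_mul_div, sum_mul]
    rw [h1]
    have h2 : ∑ y ∈ S, ∑ f, m y f * φ (f a) ≤ ∑ y ∈ S, C * (Q G B γ)^[depth t a] φ y :=
      sum_le_sum fun y hy => (hm y hy).dom a φ hφ
    have h3 : ∑ y ∈ S, C * (Q G B γ)^[depth t a] φ y ≤
        C * ∑ y ∈ Dn G B x, (Q G B γ)^[depth t a] φ y := by
      rw [← mul_sum]
      apply mul_le_mul_of_nonneg_left _ hC
      exact sum_le_sum_of_subset_of_nonneg hS fun y _ _ => iter_nonneg hγ hφ _ y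
    have h4 : 0 ≤ C * ∑ y ∈ Dn G B x, (Q G B γ)^[depth t a] φ y :=
      mul_nonneg hC (sum_nonneg fun y _ => iter_nonneg hγ hφ _ y)
    calc (∑ y ∈ S, ∑ f, m y f * φ (f a)) / S.card
        ≤ (C * ∑ y ∈ Dn G B x, (Q G B γ)^[depth t a] φ y) / S.card :=
          div_le_div_of_nonneg_right (h2.trans h3) hn.le
      _ ≤ (C * ∑ y ∈ Dn G B x, (Q G B γ)^[depth t a] φ y) / (γ * dg G x) :=
          div_le_div_of_nonneg_left h4 (mul_pos hγ hx) hSc
      _ = C * (Q G B γ)^[depth t a + 1] φ x := by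
          rw [Function.iterate_succ_apply', Q, mul_div_assoc]

/-- the bad pairs of copies -/
def Bad (G : SimpleGraph V) (a b : BT) (p : (Nd a → V) × (Nd b → V)) : Prop :=
  ∃ st : Nd a × Nd b, ¬ (st.1 = BT.root a ∧ st.2 = BT.root b) ∧
    (p.2 st.2 = p.1 st.1 ∨ G.Adj (p.1 st.1) (p.2 st.2))

open Classical in
/-- the probability of the bad pairs -/
theorem bad_le {G : SimpleGraph V} {B γ C₁ C₂ : ℝ} (hγ : 0 < γ) (hγ1 : γ ≤ 1) (hB : 1 ≤ B)
    (hC₂ : 0 ≤ C₂) (x : V) (a b : BT) (hx : 0 < dg G x) (μ : (Nd a → V) → ℝ)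
    (hμ : Mu G B γ C₁ x a μ) (ν : (Nd b → V) → ℝ) (hν0 : ∀ f, 0 ≤ ν f)
    (hν : ∀ (t : Nd b) (φ : V → ℝ), (∀ v, 0 ≤ φ v) →
        ∑ f, ν f * φ (f t) ≤ C₂ * (Q G B γ)^[depth b t + 1] φ x) :
    ∑ p : (Nd a → V) × (Nd b → V), (if Bad G a b p then μ p.1 * ν p.2 else 0) ≤
      Fintype.card (Nd a × Nd b) * (C₂ * (2 * (γ⁻¹) ^ (ht b + 1) / B)) := by
  have h1 : ∀ p : (Nd a → V) × (Nd b → V), (if Bad G a b p then μ p.1 * ν p.2 else 0) ≤
      ∑ st : Nd a × Nd b, if ¬ (st.1 = BT.root a ∧ st.2 = BT.root b) then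
        μ p.1 * ν p.2 * cl G (p.1 st.1) (p.2 st.2) else 0 := by
    intro p
    have h0 : 0 ≤ μ p.1 * ν p.2 := mul_nonneg (hμ.nonneg _) (hν0 _)
    have hnn : ∀ st ∈ (univ : Finset (Nd a × Nd b)),
        0 ≤ if ¬ (st.1 = BT.root a ∧ st.2 = BT.root b) then
        μ p.1 * ν p.2 * cl G (p.1 st.1) (p.2 st.2) else 0 := by
      intro st _
      split_ifs
      · exact le_rfl
      · exact mul_nonneg h0 (cl_nonneg _ _)
    by_cases hb : Bad G a b p
    · rw [if_pos hb]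
      obtain ⟨st, hst, hst2⟩ := hb
      have h2 := single_le_sum hnn (mem_univ st)
      rw [if_pos hst] at h2
      have h3 : cl G (p.1 st.1) (p.2 st.2) = 1 := by
        unfold cl
        exact if_pos hst2
      rw [h3, mul_one] at h2
      exact h2
    · rw [if_neg hb]
      exact sum_nonneg hnn
  refine (sum_le_sum fun p _ => h1 p).trans ?_
  rw [sum_comm]
  have h2 : ∀ st : Nd a × Nd b, (∑ p : (Nd a → V) × (Nd b → V),
      if ¬ (st.1 = BT.root a ∧ st.2 = BT.root b) then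
        μ p.1 * ν p.2 * cl G (p.1 st.1) (p.2 st.2) else 0) ≤
      C₂ * (2 * (γ⁻¹) ^ (ht b + 1) / B) := by
    intro st
    have hpos : 0 ≤ C₂ * (2 * (γ⁻¹) ^ (ht b + 1) / B) := by positivity
    by_cases hst : st.1 = BT.root a ∧ st.2 = BT.root b
    · rw [sum_eq_zero]
      · exact hpos
      · intro p _
        rw [if_neg (not_not.2 hst)]
    · have h3 : ∀ p : (Nd a → V) × (Nd b → V),
          (if ¬ (st.1 = BT.root a ∧ st.2 = BT.root b) then
            μ p.1 * ν p.2 * cl G (p.1 st.1) (p.2 st.2) else 0) =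
          μ p.1 * (ν p.2 * cl G (p.1 st.1) (p.2 st.2)) := by
        intro p
        rw [if_pos hst, mul_assoc]
      rw [sum_congr rfl (fun p _ => h3 p), Fintype.sum_prod_type]
      have h4 : ∀ f : Nd a → V, ∑ g : Nd b → V, μ f * (ν g * cl G (f st.1) (g st.2)) ≤
          μ f * (C₂ * (2 * (γ⁻¹) ^ (ht b + 1) / B)) := by
        intro f
        rw [← mul_sum]
        by_cases hf : μ f = 0
        · rw [hf, zero_mul, zero_mul]
        · apply mul_le_mul_of_nonneg_left _ (hμ.nonneg f)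
          have hc := hμ.copy f hf
          refine (hν st.2 (cl G (f st.1)) (fun v => cl_nonneg _ v)).trans ?_
          apply mul_le_mul_of_nonneg_left _ hC₂
          refine hit hγ hγ1 hB hx (hc.pos st.1) (p := depth a st.1) ?_ (depth_le b st.2)
            (hc.deg st.1)
          by_contra hlt
          have h5 : depth a st.1 = 0 := by omega
          have h6 : depth b st.2 = 0 := by omega
          exact hst ⟨depth_eq_zero a _ h5, depth_eq_zero b _ h6⟩
      refine (sum_le_sum fun f _ => h4 f).trans ?_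
      rw [← sum_mul, hμ.sum, one_mul]
  refine (sum_le_sum fun st _ => h2 st).trans ?_
  rw [sum_const, nsmul_eq_mul, card_univ]

/-- the step -/
theorem mu_graft {G : SimpleGraph V} {B γ C₁ C₂ : ℝ} (hγ : 0 < γ) (hγ1 : γ ≤ 1) (hB : 1 ≤ B)
    (hC₁ : 1 ≤ C₁) (hC₂ : 1 ≤ C₂) (x : V) (a b : BT) (hx : 0 < dg G x)
    (hsmall : Fintype.card (Nd a × Nd b) * (C₂ * (2 * (γ⁻¹) ^ (ht b + 1) / B)) ≤ 1 / 2)
    (μ : (Nd a → V) → ℝ) (hμ : Mu G B γ C₁ x a μ) (ν : (Nd b → V) → ℝ) (hν0 : ∀ f, 0 ≤ ν f)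
    (hν1 : ∑ f, ν f = 1) (hνc : ∀ f, ν f ≠ 0 → ∃ y ∈ Dn G B x, Copy G B y b f)
    (hν : ∀ (t : Nd b) (φ : V → ℝ), (∀ v, 0 ≤ φ v) →
        ∑ f, ν f * φ (f t) ≤ C₂ * (Q G B γ)^[depth b t + 1] φ x) :
    ∃ ξ, Mu G B γ (2 * (C₁ * C₂)) x (BT.graft a b) ξ := by
  classical
  have hbad := (bad_le hγ hγ1 hB (by linarith) x a b hx μ hμ ν hν0 hν).trans hsmall
  have hB0 : 0 < B := by linarith
  -- the whole mass
  have hw : ∑ p : (Nd a → V) × (Nd b → V), μ p.1 * ν p.2 = 1 := by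
    rw [Fintype.sum_prod_type]
    simp only
    rw [← Fintype.sum_mul_sum, hμ.sum, hν1, one_mul]
  obtain ⟨P, hP⟩ : ∃ P : ℝ, P = ∑ p : (Nd a → V) × (Nd b → V),
      if Bad G a b p then 0 else μ p.1 * ν p.2 := ⟨_, rfl⟩
  have hPh : 1 / 2 ≤ P := by
    have h1 : P + ∑ p : (Nd a → V) × (Nd b → V), (if Bad G a b p then μ p.1 * ν p.2 else 0) = 1 := by
      rw [hP, ← sum_add_distrib, ← hw]
      refine sum_congr rfl fun p _ => ?_
      split_ifs <;> ring
    linarith
  have hP0 : 0 < P := by linarith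
  let e : (Nd (BT.graft a b) → V) ≃ (Nd a → V) × (Nd b → V) :=
    Equiv.sumArrowEquivProdArrow (Nd a) (Nd b) V
  have he1 : ∀ (f : Nd (BT.graft a b) → V) (s : Nd a), (e f).1 s = f (Sum.inl s) := fun _ _ => rfl
  have he2 : ∀ (f : Nd (BT.graft a b) → V) (s : Nd b), (e f).2 s = f (Sum.inr s) := fun _ _ => rfl
  have hsum : ∀ F : (Nd a → V) × (Nd b → V) → ℝ,
      ∑ f : Nd (BT.graft a b) → V, F (e f) = ∑ p, F p := by
    intro F
    exact Fintype.sum_equiv e _ _ (fun _ => rfl)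
  have hdomg : ∀ F : (Nd a → V) × (Nd b → V) → ℝ, (∀ p, 0 ≤ F p) →
      ∑ f : Nd (BT.graft a b) → V, (if Bad G a b (e f) then 0 else μ (e f).1 * ν (e f).2) / P *
        F (e f) ≤ 2 * ∑ p : (Nd a → V) × (Nd b → V), μ p.1 * ν p.2 * F p := by
    intro F hF
    rw [hsum (fun p => (if Bad G a b p then 0 else μ p.1 * ν p.2) / P * F p), mul_sum]
    refine sum_le_sum fun p _ => ?_
    have h0 : 0 ≤ μ p.1 * ν p.2 := mul_nonneg (hμ.nonneg _) (hν0 _)
    have h1 : (if Bad G a b p then 0 else μ p.1 * ν p.2) / P ≤ 2 * (μ p.1 * ν p.2) := by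
      rw [div_le_iff₀ hP0]
      split_ifs
      · positivity
      · nlinarith
    calc (if Bad G a b p then 0 else μ p.1 * ν p.2) / P * F p ≤ 2 * (μ p.1 * ν p.2) * F p :=
          mul_le_mul_of_nonneg_right h1 (hF p)
      _ = 2 * (μ p.1 * ν p.2 * F p) := by ring
  refine ⟨fun f => (if Bad G a b (e f) then 0 else μ (e f).1 * ν (e f).2) / P, ?_, ?_, ?_, ?_⟩
  · intro f
    split_ifs
    · simp
    · exact div_nonneg (mul_nonneg (hμ.nonneg _) (hν0 _)) hP0.le
  · rw [← sum_div, hsum (fun p => if Bad G a b p then 0 else μ p.1 * ν p.2), ← hP,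
      div_self hP0.ne']
  · intro f hf
    have hgood : ¬ Bad G a b (e f) := by
      intro h
      apply hf
      rw [if_pos h, zero_div]
    have hprod : μ (e f).1 * ν (e f).2 ≠ 0 := by
      intro h
      apply hf
      rw [if_neg hgood, h, zero_div]
    have hc1 := hμ.copy _ (left_ne_zero_of_mul hprod)
    obtain ⟨y, hy, hc2⟩ := hνc _ (right_ne_zero_of_mul hprod)
    have hy' := mem_Dn.1 hy
    have hroot1 : f (Sum.inl (BT.root a)) = x := hc1.root
    have hroot2 : f (Sum.inr (BT.root b)) = y := hc2.root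
    have hcross : ∀ (s : Nd a) (t : Nd b), ¬ (s = BT.root a ∧ t = BT.root b) →
        f (Sum.inr t) ≠ f (Sum.inl s) ∧ ¬ G.Adj (f (Sum.inl s)) (f (Sum.inr t)) := by
      intro s t hst
      constructor
      · intro h
        exact hgood ⟨(s, t), hst, Or.inl h⟩
      · intro h
        exact hgood ⟨(s, t), hst, Or.inr h⟩
    have hne : ∀ (s : Nd a) (t : Nd b), f (Sum.inr t) ≠ f (Sum.inl s) := by
      intro s t
      by_cases hst : s = BT.root a ∧ t = BT.root b
      · rw [hst.1, hst.2, hroot1, hroot2]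
        exact hy'.1.ne'
      · exact (hcross s t hst).1
    have hadj : ∀ (s : Nd a) (t : Nd b), (s = BT.root a ∧ t = BT.root b) ↔
        G.Adj (f (Sum.inl s)) (f (Sum.inr t)) := by
      intro s t
      by_cases hst : s = BT.root a ∧ t = BT.root b
      · refine ⟨fun _ => ?_, fun _ => hst⟩
        rw [hst.1, hst.2, hroot1, hroot2]
        exact hy'.1
      · exact ⟨fun h => absurd h hst, fun h => absurd h (hcross s t hst).2⟩
    refine ⟨hroot1, ?_, ?_, ?_, ?_⟩
    · rintro (s | s) (t | t) h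
      · exact congrArg Sum.inl (hc1.inj h)
      · exact absurd h.symm (hne s t)
      · exact absurd h (hne t s)
      · exact congrArg Sum.inr (hc2.inj h)
    · rintro (s | s) (t | t)
      · exact hc1.adj s t
      · exact hadj s t
      · exact (hadj t s).trans (G.adj_comm _ _)
      · exact hc2.adj s t
    · rintro (s | s)
      · exact hc1.deg s
      · change B ^ (depth b s + 1) * dg G (f (Sum.inr s)) ≤ dg G x
        have h1 : B ^ depth b s * dg G (f (Sum.inr s)) ≤ dg G y := hc2.deg s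
        calc B ^ (depth b s + 1) * dg G (f (Sum.inr s))
            = B * (B ^ depth b s * dg G (f (Sum.inr s))) := by ring
          _ ≤ B * dg G y := mul_le_mul_of_nonneg_left h1 hB0.le
          _ ≤ dg G x := hy'.2
    · rintro (s | s)
      · exact hc1.pos s
      · exact hc2.pos s
  · rintro (s | s) φ hφ
    · have h1 := hdomg (fun p => φ (p.1 s)) (fun p => hφ _)
      refine h1.trans ?_
      have h2 : ∑ p : (Nd a → V) × (Nd b → V), μ p.1 * ν p.2 * φ (p.1 s) =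
          ∑ f, μ f * φ (f s) := by
        rw [Fintype.sum_prod_type]
        refine sum_congr rfl fun f _ => ?_
        simp only
        have : ∀ g : Nd b → V, μ f * ν g * φ (f s) = μ f * φ (f s) * ν g := fun g => by ring
        rw [sum_congr rfl (fun g _ => this g), ← mul_sum, hν1, mul_one]
      rw [h2]
      have h3 := hμ.dom s φ hφ
      have h4 : 0 ≤ (Q G B γ)^[depth a s] φ x := iter_nonneg hγ hφ _ x
      change 2 * ∑ f, μ f * φ (f s) ≤ 2 * (C₁ * C₂) * (Q G B γ)^[depth a s] φ x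
      have h5 : C₁ * (Q G B γ)^[depth a s] φ x ≤ C₁ * C₂ * (Q G B γ)^[depth a s] φ x := by
        apply mul_le_mul_of_nonneg_right _ h4
        nlinarith
      linarith
    · have h1 := hdomg (fun p => φ (p.2 s)) (fun p => hφ _)
      refine h1.trans ?_
      have h2 : ∑ p : (Nd a → V) × (Nd b → V), μ p.1 * ν p.2 * φ (p.2 s) =
          ∑ g, ν g * φ (g s) := by
        rw [Fintype.sum_prod_type]
        simp only
        have : ∀ (f : Nd a → V) (g : Nd b → V), μ f * ν g * φ (g s) = μ f * (ν g * φ (g s)) :=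
          fun f g => by ring
        rw [sum_congr rfl (fun f _ => sum_congr rfl (fun g _ => this f g)),
          ← Fintype.sum_mul_sum, hμ.sum, one_mul]
      rw [h2]
      have h3 := hν s φ hφ
      have h4 : 0 ≤ (Q G B γ)^[depth b s + 1] φ x := iter_nonneg hγ hφ _ x
      change 2 * ∑ g, ν g * φ (g s) ≤ 2 * (C₁ * C₂) * (Q G B γ)^[depth b s + 1] φ x
      have h5 : C₂ * (Q G B γ)^[depth b s + 1] φ x ≤
          C₁ * C₂ * (Q G B γ)^[depth b s + 1] φ x := by
        apply mul_le_mul_of_nonneg_right _ h4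
        nlinarith
      linarith

/-- **Random copies.** -/
theorem copies {γ : ℝ} (hγ : 0 < γ) (hγ1 : γ ≤ 1) : ∀ t : BT, ∃ C B₀ : ℝ, 1 ≤ C ∧ 1 ≤ B₀ ∧
    ∀ B : ℝ, B₀ ≤ B → ∀ (V : Type) [Fintype V] (G : SimpleGraph V) (x : V),
      x ∈ U G B γ (ht t) → 0 < dg G x → ∃ μ, Mu G B γ C x t μ := by
  classical
  intro t
  induction t with
  | nil =>
    refine ⟨1, 1, le_rfl, le_rfl, ?_⟩
    intro B _ V _ G x _ hx
    exact mu_nil G B γ x hx
  | graft a b iha ihb =>
    obtain ⟨C₁, B₁, hC₁, hB₁, H1⟩ := iha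
    obtain ⟨C₂, B₂, hC₂, hB₂, H2⟩ := ihb
    obtain ⟨E, hE⟩ : ∃ E : ℝ, E = Fintype.card (Nd a × Nd b) * (C₂ * (2 * (γ⁻¹) ^ (ht b + 1))) :=
      ⟨_, rfl⟩
    have hE0 : 0 ≤ E := by rw [hE]; positivity
    refine ⟨2 * (C₁ * C₂), B₁ + B₂ + 2 * E, by nlinarith, by linarith, ?_⟩
    intro B hB V _ G x hxU hx
    have hBB : 1 ≤ B := by linarith
    have hB0 : 0 < B := by linarith
    have hxa : x ∈ U G B γ (ht a) := U_le (le_max_left _ _) hxU
    have hxb : x ∈ U G B γ (ht b + 1) := U_le (le_max_right _ _) hxU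
    obtain ⟨μ, hμ⟩ := H1 B (by linarith) V G x hxa hx
    have hxb' := mem_U_succ.1 hxb
    obtain ⟨ν, hν0, hν1, hνc, hνd⟩ := child (G := G) (B := B) (γ := γ) (C := C₂) hγ (by linarith) x
      b hx (Dn G B x ∩ U G B γ (ht b)) inter_subset_left hxb'.2 (by
        intro y hy
        rw [mem_inter] at hy
        exact H2 B (by linarith) V G y hy.2 (dg_pos_of_adj (mem_Dn.1 hy.1).1.symm))
    refine mu_graft hγ hγ1 hBB hC₁ hC₂ x a b hx ?_ μ hμ ν hν0 hν1 ?_ hνd
    · have h1 : (Fintype.card (Nd a × Nd b) : ℝ) * (C₂ * (2 * (γ⁻¹) ^ (ht b + 1) / B)) = E / B := by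
        rw [hE]
        ring
      rw [h1, div_le_iff₀ hB0]
      linarith
    · intro f hf
      obtain ⟨y, hy, hc⟩ := hνc f hf
      exact ⟨y, (mem_inter.1 hy).1, hc⟩

/-- If there is no induced copy of `t`, then the set `U (ht t)` is empty, up to isolated vertices. -/
theorem no_copy {γ : ℝ} (hγ : 0 < γ) (hγ1 : γ ≤ 1) (t : BT) : ∃ B₀ : ℝ, 1 ≤ B₀ ∧
    ∀ B : ℝ, B₀ ≤ B → ∀ (V : Type) [Fintype V] (G : SimpleGraph V),
      (¬ ∃ f : Nd t → V, Function.Injective f ∧ ∀ a b, BT.adj t a b ↔ G.Adj (f a) (f b)) →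
      ∀ x, 0 < dg G x → x ∉ U G B γ (ht t) := by
  classical
  obtain ⟨C, B₀, _, hB₀, H⟩ := copies hγ hγ1 t
  refine ⟨B₀, hB₀, ?_⟩
  intro B hB V _ G hno x hx hxU
  obtain ⟨μ, hμ⟩ := H B hB V G x hxU hx
  have h1 : ∑ f, μ f ≠ 0 := by rw [hμ.sum]; norm_num
  obtain ⟨f, _, hf⟩ := exists_ne_zero_of_sum_ne_zero h1
  have hc := hμ.copy f hf
  exact hno ⟨f, hc.inj, hc.adj⟩

end Pool.Agent.U797.GC
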