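import Pool.Agent.U797.GC.Copies
import Pool.Agent.R50.MC.Main

set_option autoImplicit false

/-!
# Cuts: gluing, steep edges, and the main theorem in form version
-/

namespace Pool.Agent.U797.GC

open Finset Pool.Agent.Y394.AT Pool.Agent.R50.MC

variable {V : Type} [Fintype V] {G : SimpleGraph V}

/-- signs on `A` for which the adjacency form is at most `r` -/
def Sg (G : SimpleGraph V) (A : Finset V) (r : ℝ) : Prop :=
  ∃ s : V → ℝ, (∀ v ∈ A, s v = 1 ∨ s v = -1) ∧ (∀ v, v ∉ A → s v = 0) ∧ q G s ≤ r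

theorem Sg.mono {A : Finset V} {r r' : ℝ} (h : Sg G A r) (hr : r ≤ r') : Sg G A r' := by
  obtain ⟨s, h1, h2, h3⟩ := h
  exact ⟨s, h1, h2, h3.trans hr⟩

open Classical in
theorem Sg.union {A A' : Finset V} {r r' : ℝ} (hd : Disjoint A A') (h : Sg G A r)
    (h' : Sg G A' r') : Sg G (A ∪ A') (r + r') := by
  obtain ⟨s, h1, h2, h3⟩ := h
  obtain ⟨s', h1', h2', h3'⟩ := h'
  have key : ∀ t : ℝ, (t = 1 ∨ t = -1) → (∀ v ∈ A ∪ A', s v + t * s' v = 1 ∨ s v + t * s' v = -1) ∧
      ∀ v, v ∉ A ∪ A' → s v + t * s' v = 0 := by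
    intro t ht
    constructor
    · intro v hv
      rw [mem_union] at hv
      rcases hv with hv | hv
      · have : v ∉ A' := disjoint_left.1 hd hv
        rw [h2' v this, mul_zero, add_zero]
        exact h1 v hv
      · have : v ∉ A := disjoint_right.1 hd hv
        rw [h2 v this, zero_add]
        rcases ht with rfl | rfl
        · rcases h1' v hv with h4 | h4
          · left; rw [h4]; norm_num
          · right; rw [h4]; norm_num
        · rcases h1' v hv with h4 | h4
          · right; rw [h4]; norm_num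
          · left; rw [h4]; norm_num
    · intro v hv
      rw [mem_union, not_or] at hv
      rw [h2 v hv.1, h2' v hv.2]
      ring
  have e1 := q_add (G := G) s s' 1
  have e2 := q_add (G := G) s s' (-1)
  rcases le_total (q G (fun v => s v + 1 * s' v)) (q G (fun v => s v + -1 * s' v)) with h5 | h5
  · obtain ⟨k1, k2⟩ := key 1 (Or.inl rfl)
    exact ⟨fun v => s v + 1 * s' v, k1, k2, by nlinarith⟩
  · obtain ⟨k1, k2⟩ := key (-1) (Or.inr rfl)
    exact ⟨fun v => s v + -1 * s' v, k1, k2, by nlinarith⟩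

theorem sg_empty : Sg G ∅ 0 := by
  classical
  refine ⟨fun _ => 0, fun v hv => absurd hv (notMem_empty v), fun _ _ => rfl, ?_⟩
  unfold q bb
  simp

theorem sg_single (v : V) : Sg G {v} 0 := by
  classical
  refine ⟨fun w => if w = v then 1 else 0, ?_, ?_, ?_⟩
  · intro w hw
    rw [mem_singleton] at hw
    left
    exact if_pos hw
  · intro w hw
    rw [mem_singleton] at hw
    exact if_neg hw
  · unfold q bb
    refine le_of_eq (sum_eq_zero fun a _ => sum_eq_zero fun b _ => ?_)
    by_cases h1 : G.Adj a b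
    · rw [if_pos h1]
      by_cases h2 : a = v
      · by_cases h3 : b = v
        · rw [h2, h3] at h1
          exact (G.irrefl h1).elim
        · simp [h3]
      · simp [h2]
    · rw [if_neg h1]

theorem sg_zero (A : Finset V) : Sg G A 0 := by
  classical
  induction A using Finset.induction_on with
  | empty => exact sg_empty
  | insert v A hv ih =>
    have h := Sg.union (disjoint_singleton_left.2 hv) (sg_single v) ih
    rw [add_zero, ← insert_eq] at h
    exact h

open Classical in
theorem sg_biUnion {ι : Type} (I : Finset ι) (A : ι → Finset V) (r : ι → ℝ)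
    (hd : ∀ i ∈ I, ∀ j ∈ I, i ≠ j → Disjoint (A i) (A j)) (h : ∀ i ∈ I, Sg G (A i) (r i)) :
    Sg G (I.biUnion A) (∑ i ∈ I, r i) := by
  induction I using Finset.induction_on with
  | empty => rw [biUnion_empty, sum_empty]; exact sg_empty
  | insert i I hi ih =>
    rw [biUnion_insert, sum_insert hi]
    apply Sg.union _ (h i (mem_insert_self _ _))
    · exact ih (fun a ha b hb => hd a (mem_insert_of_mem ha) b (mem_insert_of_mem hb))
        (fun a ha => h a (mem_insert_of_mem ha))
    · rw [disjoint_biUnion_right]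
      intro j hj
      refine hd i (mem_insert_self _ _) j (mem_insert_of_mem hj) ?_
      rintro rfl
      exact hi hj

theorem Sg.univ {A : Finset V} {r : ℝ} (h : Sg G A r) : Sg G (Finset.univ : Finset V) r := by
  classical
  have h1 := Sg.union (disjoint_compl_right (a := A)) h (sg_zero Aᶜ)
  rw [add_zero, union_compl] at h1
  exact h1

open Classical in
/-- the indicator of a proposition -/
noncomputable def I1 (p : Prop) : ℝ := if p then 1 else 0

theorem I1_pos {p : Prop} (h : p) : I1 p = 1 := if_pos h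

theorem I1_neg {p : Prop} (h : ¬ p) : I1 p = 0 := if_neg h

theorem I1_nonneg (p : Prop) : 0 ≤ I1 p := by
  unfold I1
  split_ifs <;> norm_num

theorem I1_le_one (p : Prop) : I1 p ≤ 1 := by
  unfold I1
  split_ifs <;> norm_num

theorem card_eq_I1 (A : Finset V) : (A.card : ℝ) = ∑ w, I1 (w ∈ A) := by
  classical
  have h : ∀ w, I1 (w ∈ A) = if w ∈ A then (1 : ℝ) else 0 := by
    intro w
    by_cases h : w ∈ A
    · rw [I1_pos h, if_pos h]
    · rw [I1_neg h, if_neg h]
  rw [sum_congr rfl (fun w _ => h w), ← sum_filter, sum_const, nsmul_eq_mul, mul_one]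
  congr 2
  ext w
  simp

/-- the number of the ordered adjacent pairs with the property `P` -/
noncomputable def S (G : SimpleGraph V) (P : V → V → Prop) : ℝ :=
  ∑ v, ∑ w, I1 (G.Adj v w ∧ P v w)

theorem S_nonneg (P : V → V → Prop) : 0 ≤ S G P :=
  sum_nonneg fun _ _ => sum_nonneg fun _ _ => I1_nonneg _

theorem S_true : S G (fun _ _ => True) = ∑ v, dg G v := by
  classical
  unfold S
  refine sum_congr rfl fun v _ => ?_
  unfold dg
  rw [card_eq_I1]
  refine sum_congr rfl fun w _ => ?_
  rw [mem_nb]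
  simp

theorem q_eq_I1 (s : V → ℝ) : q G s = ∑ v, ∑ w, I1 (G.Adj v w) * (s v * s w) := by
  classical
  unfold q bb
  refine sum_congr rfl fun v _ => sum_congr rfl fun w _ => ?_
  by_cases h : G.Adj v w
  · rw [if_pos h, I1_pos h, one_mul]
  · rw [if_neg h, I1_neg h, zero_mul]

open Classical in
/-- **Colours for the steep edges.** -/
theorem colour {B γ : ℝ} (h : ℕ) (hno : ∀ x, 0 < dg G x → x ∉ U G B γ h) :
    ∃ col : V → ℕ, (∀ v, col v < max h 1) ∧
      ∀ v, (((Dn G B v).filter (fun w => col w = col v)).card : ℝ) ≤ γ * dg G v := by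
  have hex : ∀ v : V, ∃ i : ℕ, i < max h 1 ∧ (0 < dg G v → v ∈ U G B γ i ∧ v ∉ U G B γ (i + 1)) := by
    intro v
    by_cases hv : 0 < dg G v
    · have h0 : v ∈ U G B γ 0 := by rw [U]; exact mem_univ v
      have h1 : ∃ i, v ∉ U G B γ i := ⟨h, hno v hv⟩
      have h2 := Nat.find_spec h1
      have h3 : Nat.find h1 ≠ 0 := by
        intro h4
        rw [h4] at h2
        exact h2 h0
      have h5 : Nat.find h1 ≤ h := Nat.find_min' h1 (hno v hv)
      refine ⟨Nat.find h1 - 1, ?_, fun _ => ⟨?_, ?_⟩⟩
      · have := le_max_left h 1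
        omega
      · by_contra h6
        exact Nat.find_min h1 (by omega) h6
      · rw [Nat.sub_add_cancel (Nat.one_le_iff_ne_zero.2 h3)]
        exact h2
    · exact ⟨0, lt_of_lt_of_le one_pos (le_max_right _ _), fun h => absurd h hv⟩
  choose col hcol1 hcol2 using hex
  refine ⟨col, hcol1, fun v => ?_⟩
  by_cases hv : 0 < dg G v
  · have h1 : (Dn G B v).filter (fun w => col w = col v) ⊆ Dn G B v ∩ U G B γ (col v) := by
      intro w hw
      rw [mem_filter] at hw
      rw [mem_inter]
      refine ⟨hw.1, ?_⟩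
      rw [← hw.2]
      exact (hcol2 w (dg_pos_of_adj (mem_Dn.1 hw.1).1.symm)).1
    have h2 := (hcol2 v hv).2
    rw [mem_U_succ, not_and, not_le] at h2
    have h3 := h2 hv
    have h4 : (((Dn G B v).filter (fun w => col w = col v)).card : ℝ) ≤
        ((Dn G B v ∩ U G B γ (col v)).card : ℝ) := by exact_mod_cast card_le_card h1
    linarith
  · have h1 : Dn G B v = ∅ := by
      rw [eq_empty_iff_forall_notMem]
      intro w hw
      exact hv (dg_pos_of_adj (mem_Dn.1 hw).1)
    have h2 : dg G v = 0 := le_antisymm (not_lt.1 hv) (dg_nonneg v)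
    rw [h1, h2]
    simp

open Classical in
/-- the case of few flat edges -/
theorem steep_case {B γ θ : ℝ} (r : ℕ) (hr : 1 ≤ r) (col : V → ℕ) (hcol : ∀ v, col v < r)
    (hθ : θ ≤ 1 / (3 * (r : ℝ) ^ 2))
    (hmono : ∀ v, (((Dn G B v).filter (fun w => col w = col v)).card : ℝ) ≤ γ * dg G v)
    (hfl : S G (fun v w => dg G v < B * dg G w ∧ dg G w < B * dg G v) + 2 * γ * ∑ v, dg G v ≤
      θ * ∑ v, dg G v) :
    Sg G (univ : Finset V) (-(1 / (3 * (r : ℝ) ^ 2) * ∑ v, dg G v)) := by
  have hr1 : (1 : ℝ) ≤ r := by exact_mod_cast hr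
  obtain ⟨W, hW⟩ : ∃ W : ℝ, W = ∑ v, dg G v := ⟨_, rfl⟩
  have hW0 : 0 ≤ W := by rw [hW]; exact sum_nonneg fun v _ => dg_nonneg v
  rw [← hW] at hfl ⊢
  rcases hW0.eq_or_lt with hW1 | hW1
  · rw [← hW1, mul_zero, neg_zero]
    exact sg_zero _
  -- the monochromatic edges
  obtain ⟨I, hI⟩ : ∃ I : ℝ, I = S G (fun v w => col v = col w) := ⟨_, rfl⟩
  have hIle : I ≤ θ * W := by
    refine le_trans ?_ hfl
    have h1 : ∑ v, (((Dn G B v).filter (fun w => col w = col v)).card : ℝ) ≤ γ * W := by
      rw [hW, mul_sum]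
      exact sum_le_sum fun v _ => hmono v
    have h2 : ∑ v, (((Dn G B v).filter (fun w => col w = col v)).card : ℝ) =
        ∑ v, ∑ w, I1 (w ∈ Dn G B v ∧ col w = col v) := by
      refine sum_congr rfl fun v _ => ?_
      rw [card_eq_I1]
      refine sum_congr rfl fun w _ => ?_
      rw [mem_filter]
    have h3 : ∑ v, ∑ w, I1 (w ∈ Dn G B v ∧ col w = col v) =
        ∑ v, ∑ w, I1 (v ∈ Dn G B w ∧ col v = col w) := sum_comm
    have h4 : I ≤ S G (fun v w => dg G v < B * dg G w ∧ dg G w < B * dg G v) +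
        (∑ v, ∑ w, I1 (w ∈ Dn G B v ∧ col w = col v)) +
        ∑ v, ∑ w, I1 (v ∈ Dn G B w ∧ col v = col w) := by
      rw [hI]
      unfold S
      rw [← sum_add_distrib, ← sum_add_distrib]
      refine sum_le_sum fun v _ => ?_
      rw [← sum_add_distrib, ← sum_add_distrib]
      refine sum_le_sum fun w _ => ?_
      have g1 := I1_nonneg (G.Adj v w ∧ dg G v < B * dg G w ∧ dg G w < B * dg G v)
      have g2 := I1_nonneg (w ∈ Dn G B v ∧ col w = col v)
      have g3 := I1_nonneg (v ∈ Dn G B w ∧ col v = col w)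
      by_cases hvw : G.Adj v w ∧ col v = col w
      · rw [I1_pos hvw]
        by_cases k1 : dg G v < B * dg G w
        · by_cases k2 : dg G w < B * dg G v
          · rw [I1_pos ⟨hvw.1, k1, k2⟩]
            linarith
          · have k3 : v ∈ Dn G B w ∧ col v = col w :=
              ⟨mem_Dn.2 ⟨hvw.1.symm, not_lt.1 k2⟩, hvw.2⟩
            rw [I1_pos k3]
            linarith
        · have k3 : w ∈ Dn G B v ∧ col w = col v := ⟨mem_Dn.2 ⟨hvw.1, not_lt.1 k1⟩, hvw.2.symm⟩
          rw [I1_pos k3]
          linarith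
      · rw [I1_neg hvw]
        linarith
    linarith
  -- the pairs of classes
  obtain ⟨M, hM⟩ : ∃ M : ℕ → ℕ → ℝ, M = fun i j => S G (fun v w => col v = i ∧ col w = j) :=
    ⟨_, rfl⟩
  have hsumM : ∑ p ∈ range r ×ˢ range r, (if p.1 ≠ p.2 then M p.1 p.2 else 0) = W - I := by
    have h1 : W - I = ∑ v, ∑ w, I1 (G.Adj v w ∧ col v ≠ col w) := by
      rw [hW, hI, ← S_true]
      unfold S
      rw [← sum_sub_distrib]
      refine sum_congr rfl fun v _ => ?_
      rw [← sum_sub_distrib]
      refine sum_congr rfl fun w _ => ?_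
      by_cases k1 : G.Adj v w
      · by_cases k2 : col v = col w
        · rw [I1_pos ⟨k1, trivial⟩, I1_pos ⟨k1, k2⟩, I1_neg (fun h => h.2 k2)]
          norm_num
        · rw [I1_pos ⟨k1, trivial⟩, I1_neg (fun h => k2 h.2), I1_pos ⟨k1, k2⟩]
          norm_num
      · rw [I1_neg (fun h => k1 h.1), I1_neg (fun h => k1 h.1), I1_neg (fun h => k1 h.1)]
        norm_num
    rw [h1, hM]
    unfold S
    have h2 : ∀ p ∈ range r ×ˢ range r, (if p.1 ≠ p.2 then
        ∑ v, ∑ w, I1 (G.Adj v w ∧ col v = p.1 ∧ col w = p.2) else 0) =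
        ∑ v, ∑ w, if p = (col v, col w) then I1 (G.Adj v w ∧ col v ≠ col w) else 0 := by
      intro p _
      by_cases hp : p.1 ≠ p.2
      · rw [if_pos hp]
        refine sum_congr rfl fun v _ => sum_congr rfl fun w _ => ?_
        by_cases h3 : p = (col v, col w)
        · subst h3
          rw [if_pos rfl]
          by_cases h4 : G.Adj v w
          · rw [I1_pos ⟨h4, rfl, rfl⟩, I1_pos ⟨h4, hp⟩]
          · rw [I1_neg (fun h => h4 h.1), I1_neg (fun h => h4 h.1)]
        · rw [if_neg h3, I1_neg]
          rintro ⟨_, h5, h6⟩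
          exact h3 (Prod.ext h5.symm h6.symm)
      · rw [if_neg hp]
        symm
        refine sum_eq_zero fun v _ => sum_eq_zero fun w _ => ?_
        by_cases h3 : p = (col v, col w)
        · subst h3
          rw [if_pos rfl, I1_neg (fun h => hp h.2)]
        · rw [if_neg h3]
    rw [sum_congr rfl h2, sum_comm]
    refine sum_congr rfl fun v _ => ?_
    rw [sum_comm]
    refine sum_congr rfl fun w _ => ?_
    rw [sum_ite_eq' (range r ×ˢ range r) (col v, col w), if_pos]
    rw [mem_product, mem_range, mem_range]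
    exact ⟨hcol v, hcol w⟩
  have hWI : 2 / 3 * W ≤ W - I := by
    have h1 : θ ≤ 1 / 3 := by
      refine hθ.trans ?_
      apply one_div_le_one_div_of_le (by norm_num)
      nlinarith
    nlinarith
  obtain ⟨p, hp, hp2⟩ := exists_le_of_sum_le
    (s := range r ×ˢ range r) (f := fun _ : ℕ × ℕ => (W - I) / (r : ℝ) ^ 2)
    (g := fun p : ℕ × ℕ => if p.1 ≠ p.2 then M p.1 p.2 else 0)
    (by
      refine ⟨(0, 0), ?_⟩
      rw [mem_product, mem_range]
      exact ⟨hr, hr⟩)
    (by
      rw [hsumM, sum_const, card_product, card_range, nsmul_eq_mul]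
      push_cast
      apply le_of_eq
      field_simp)
  have hWpos : 0 < (W - I) / (r : ℝ) ^ 2 := by
    apply div_pos _ (by positivity)
    linarith
  by_cases hpne : p.1 ≠ p.2
  swap
  · beta_reduce at hp2
    rw [if_neg hpne] at hp2
    linarith
  beta_reduce at hp2
  rw [if_pos hpne] at hp2
  obtain ⟨A, hA⟩ : ∃ A : Finset V, A = univ.filter (fun v => col v = p.1 ∨ col v = p.2) := ⟨_, rfl⟩
  obtain ⟨s, hs⟩ : ∃ s : V → ℝ, s = fun v => if col v = p.1 then 1 else if col v = p.2 then -1 else 0 :=
    ⟨_, rfl⟩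
  have hs1 : ∀ v, col v = p.1 → s v = 1 := by
    intro v hv
    rw [hs]
    exact if_pos hv
  have hs2 : ∀ v, col v = p.2 → s v = -1 := by
    intro v hv
    rw [hs]
    have : col v ≠ p.1 := fun h => hpne (h.symm.trans hv)
    beta_reduce
    rw [if_neg this, if_pos hv]
  have hs3 : ∀ v, col v ≠ p.1 → col v ≠ p.2 → s v = 0 := by
    intro v hv hv'
    rw [hs]
    beta_reduce
    rw [if_neg hv, if_neg hv']
  have hSg : Sg G A (I - M p.1 p.2) := by
    refine ⟨s, ?_, ?_, ?_⟩
    · intro v hv
      rw [hA, mem_filter] at hv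
      rcases hv.2 with h | h
      · left; exact hs1 v h
      · right; exact hs2 v h
    · intro v hv
      rw [hA, mem_filter] at hv
      have hv' : ¬ (col v = p.1 ∨ col v = p.2) := fun h => hv ⟨mem_univ v, h⟩
      rw [not_or] at hv'
      exact hs3 v hv'.1 hv'.2
    · rw [hI, hM, q_eq_I1]
      unfold S
      rw [← sum_sub_distrib]
      refine sum_le_sum fun v _ => ?_
      rw [← sum_sub_distrib]
      refine sum_le_sum fun w _ => ?_
      by_cases k0 : G.Adj v w
      · rw [I1_pos k0, one_mul]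
        have hss : s v * s w ≤ 1 := by
          have : ∀ v, s v = 1 ∨ s v = -1 ∨ s v = 0 := by
            intro v
            by_cases h1 : col v = p.1
            · exact Or.inl (hs1 v h1)
            · by_cases h2 : col v = p.2
              · exact Or.inr (Or.inl (hs2 v h2))
              · exact Or.inr (Or.inr (hs3 v h1 h2))
          rcases this v with h | h | h <;> rcases this w with h' | h' | h' <;> rw [h, h'] <;> norm_num
        by_cases k1 : col v = col w
        · have k2 : ¬ (G.Adj v w ∧ col v = p.1 ∧ col w = p.2) := by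
            rintro ⟨_, h1, h2⟩
            exact hpne (by rw [← h1, ← h2, k1])
          rw [I1_pos ⟨k0, k1⟩, I1_neg k2]
          linarith
        · rw [I1_neg (fun h => k1 h.2)]
          by_cases k3 : col v = p.1
          · have k5 : col w ≠ p.1 := fun h => k1 (k3.trans h.symm)
            by_cases k4 : col w = p.2
            · rw [I1_pos ⟨k0, k3, k4⟩, hs1 v k3, hs2 w k4]
              norm_num
            · rw [I1_neg (fun h => k4 h.2.2), hs3 w k5 k4]
              norm_num
          · rw [I1_neg (fun h => k3 h.2.1)]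
            by_cases k4 : col v = p.2
            · have k5 : col w ≠ p.2 := fun h => k1 (k4.trans h.symm)
              by_cases k6 : col w = p.1
              · rw [hs2 v k4, hs1 w k6]
                norm_num
              · rw [hs3 w k6 k5]
                norm_num
            · rw [hs3 v k3 k4]
              norm_num
      · rw [I1_neg k0, I1_neg (fun h => k0 h.1), I1_neg (fun h => k0 h.1)]
        norm_num
  refine (Sg.univ hSg).mono ?_
  have h1 : 2 / 3 * W / (r : ℝ) ^ 2 ≤ (W - I) / (r : ℝ) ^ 2 :=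
    div_le_div_of_nonneg_right hWI (by positivity)
  have h2 : I ≤ 1 / (3 * (r : ℝ) ^ 2) * W := hIle.trans (mul_le_mul_of_nonneg_right hθ hW0)
  have h3 : 2 / 3 * W / (r : ℝ) ^ 2 = 2 * (1 / (3 * (r : ℝ) ^ 2) * W) := by
    field_simp
  linarith

end Pool.Agent.U797.GC
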