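import Pool.Agent.U797.GC.Tree
import Pool.Agent.Y394.AT.Grow

set_option autoImplicit false

/-!
# Random walks to vertices of much smaller degree
-/

namespace Pool.Agent.U797.GC

open Finset Pool.Agent.Y394.AT

variable {V : Type} [Fintype V]

/-- the degree -/
noncomputable def dg (G : SimpleGraph V) (v : V) : ℝ := ((nb G v).card : ℝ)

open Classical in
/-- the neighbours of much smaller degree -/
noncomputable def Dn (G : SimpleGraph V) (B : ℝ) (v : V) : Finset V :=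
  (nb G v).filter (fun w => B * dg G w ≤ dg G v)

/-- one step down -/
noncomputable def Q (G : SimpleGraph V) (B γ : ℝ) (φ : V → ℝ) (x : V) : ℝ :=
  (∑ y ∈ Dn G B x, φ y) / (γ * dg G x)

open Classical in
/-- the vertices with many steps down into `U i`, iterated -/
noncomputable def U (G : SimpleGraph V) (B γ : ℝ) : ℕ → Finset V
  | 0 => univ
  | i + 1 => univ.filter (fun v => 0 < dg G v ∧
      γ * dg G v ≤ ((Dn G B v ∩ U G B γ i).card : ℝ))

variable {G : SimpleGraph V} {B γ : ℝ}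

theorem dg_nonneg (v : V) : 0 ≤ dg G v := Nat.cast_nonneg _

theorem mem_Dn {v w : V} : w ∈ Dn G B v ↔ G.Adj v w ∧ B * dg G w ≤ dg G v := by
  unfold Dn
  rw [mem_filter, mem_nb]

theorem dg_pos_of_adj {v w : V} (h : G.Adj v w) : 0 < dg G v := by
  unfold dg
  exact_mod_cast card_pos.2 ⟨w, (mem_nb G v w).2 h⟩

theorem one_le_dg {v : V} (h : 0 < dg G v) : 1 ≤ dg G v := by
  unfold dg at *
  exact_mod_cast h

open Classical in
theorem mem_U_succ {i : ℕ} {v : V} : v ∈ U G B γ (i + 1) ↔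
    0 < dg G v ∧ γ * dg G v ≤ ((Dn G B v ∩ U G B γ i).card : ℝ) := by
  rw [U, mem_filter]
  simp

theorem U_anti (i : ℕ) : U G B γ (i + 1) ⊆ U G B γ i := by
  classical
  induction i with
  | zero => intro v _; rw [U]; exact mem_univ v
  | succ i ih =>
    intro v hv
    rw [mem_U_succ] at hv ⊢
    refine ⟨hv.1, hv.2.trans ?_⟩
    exact_mod_cast card_le_card (inter_subset_inter_left ih)

theorem U_le {i j : ℕ} (h : i ≤ j) : U G B γ j ⊆ U G B γ i := by
  induction j with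
  | zero => rw [Nat.le_zero.1 h]
  | succ j ih =>
    rcases Nat.lt_or_ge i (j + 1) with h1 | h1
    · exact (U_anti j).trans (ih (Nat.lt_succ_iff.1 h1))
    · rw [le_antisymm h h1]

theorem Q_nonneg (hγ : 0 < γ) {φ : V → ℝ} (hφ : ∀ v, 0 ≤ φ v) (x : V) : 0 ≤ Q G B γ φ x :=
  div_nonneg (sum_nonneg fun y _ => hφ y) (mul_nonneg hγ.le (dg_nonneg x))

theorem iter_nonneg (hγ : 0 < γ) {φ : V → ℝ} (hφ : ∀ v, 0 ≤ φ v) (n : ℕ) :
    ∀ x, 0 ≤ (Q G B γ)^[n] φ x := by
  induction n with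
  | zero => exact hφ
  | succ n ih =>
    intro x
    rw [Function.iterate_succ_apply']
    exact Q_nonneg hγ ih x

theorem sum_Q (hγ : 0 < γ) (hB : 0 < B) {φ : V → ℝ} (hφ : ∀ v, 0 ≤ φ v) :
    ∑ x, Q G B γ φ x ≤ (γ * B)⁻¹ * ∑ y, φ y := by
  classical
  have h1 : ∀ x, Q G B γ φ x = ∑ y, if y ∈ Dn G B x then φ y / (γ * dg G x) else 0 := by
    intro x
    unfold Q
    rw [sum_div, ← sum_filter]
    congr 1
    ext y
    simp
  rw [sum_congr rfl (fun x _ => h1 x), sum_comm, mul_sum]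
  refine sum_le_sum fun y _ => ?_
  have h2 : ∀ x, (if y ∈ Dn G B x then φ y / (γ * dg G x) else 0) ≤
      if x ∈ nb G y then φ y / (γ * (B * dg G y)) else 0 := by
    intro x
    by_cases hx : y ∈ Dn G B x
    · have h3 := mem_Dn.1 hx
      have h4 : 0 < dg G y := dg_pos_of_adj h3.1.symm
      rw [if_pos hx, if_pos ((mem_nb G y x).2 h3.1.symm)]
      apply div_le_div_of_nonneg_left (hφ y) (by positivity)
      exact mul_le_mul_of_nonneg_left h3.2 hγ.le
    · rw [if_neg hx]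
      split_ifs
      · exact div_nonneg (hφ y) (mul_nonneg hγ.le (mul_nonneg hB.le (dg_nonneg y)))
      · exact le_rfl
  refine (sum_le_sum fun x _ => h2 x).trans ?_
  rw [← sum_filter, sum_const, nsmul_eq_mul]
  have h5 : (((univ : Finset V).filter (fun x => x ∈ nb G y)).card : ℝ) = dg G y := by
    unfold dg
    congr 2
    ext x
    simp
  rw [h5]
  rcases (dg_nonneg (G := G) y).eq_or_lt with h6 | h6
  · rw [← h6, zero_mul]
    exact mul_nonneg (by positivity) (hφ y)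
  · have : dg G y * (φ y / (γ * (B * dg G y))) = (γ * B)⁻¹ * φ y := by
      field_simp
    rw [this]

theorem mul_Q (hγ : 0 < γ) {φ : V → ℝ} (hφ : ∀ v, 0 ≤ φ v) (x : V) :
    dg G x * Q G B γ φ x ≤ γ⁻¹ * ∑ y, φ y := by
  have h0 : ∑ y ∈ Dn G B x, φ y ≤ ∑ y, φ y :=
    sum_le_sum_of_subset_of_nonneg (subset_univ _) fun y _ _ => hφ y
  have h00 : 0 ≤ ∑ y, φ y := sum_nonneg fun y _ => hφ y
  rcases (dg_nonneg (G := G) x).eq_or_lt with h6 | h6
  · rw [← h6, zero_mul]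
    positivity
  · unfold Q
    have : dg G x * ((∑ y ∈ Dn G B x, φ y) / (γ * dg G x)) = γ⁻¹ * ∑ y ∈ Dn G B x, φ y := by
      field_simp
    rw [this]
    exact mul_le_mul_of_nonneg_left h0 (by positivity)

theorem iter_sum (hγ : 0 < γ) (hB : 0 < B) {φ : V → ℝ} (hφ : ∀ v, 0 ≤ φ v) (n : ℕ) :
    ∑ x, (Q G B γ)^[n] φ x ≤ ((γ * B)⁻¹) ^ n * ∑ y, φ y := by
  induction n with
  | zero => simp
  | succ n ih =>
    simp only [Function.iterate_succ_apply']
    refine (sum_Q hγ hB (iter_nonneg hγ hφ n)).trans ?_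
    rw [pow_succ', mul_assoc]
    exact mul_le_mul_of_nonneg_left ih (by positivity)

theorem iter_mul (hγ : 0 < γ) (hB : 0 < B) {φ : V → ℝ} (hφ : ∀ v, 0 ≤ φ v) (n : ℕ) (x : V) :
    dg G x * (Q G B γ)^[n + 1] φ x ≤ γ⁻¹ * (((γ * B)⁻¹) ^ n * ∑ y, φ y) := by
  rw [Function.iterate_succ_apply']
  refine (mul_Q hγ (iter_nonneg hγ hφ n) x).trans ?_
  exact mul_le_mul_of_nonneg_left (iter_sum hγ hB hφ n) (by positivity)

open Classical in
/-- the closed neighbourhood -/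
noncomputable def cl (G : SimpleGraph V) (u v : V) : ℝ := if v = u ∨ G.Adj u v then 1 else 0

omit [Fintype V] in
theorem cl_nonneg (u v : V) : 0 ≤ cl G u v := by
  unfold cl
  split_ifs <;> norm_num

theorem sum_cl {u : V} (hu : 0 < dg G u) : ∑ v, cl G u v ≤ 2 * dg G u := by
  classical
  unfold cl
  rw [← sum_filter, sum_const, nsmul_eq_mul, mul_one]
  have h1 : (univ : Finset V).filter (fun v => v = u ∨ G.Adj u v) ⊆ insert u (nb G u) := by
    intro v hv
    rw [mem_filter] at hv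
    rw [mem_insert, mem_nb]
    exact hv.2
  have h2 := (card_le_card h1).trans (card_insert_le _ _)
  have h3 : ((((univ : Finset V).filter (fun v => v = u ∨ G.Adj u v)).card : ℕ) : ℝ) ≤
      dg G u + 1 := by
    unfold dg
    exact_mod_cast h2
  have := one_le_dg hu
  linarith

/-- the estimate for the closed neighbourhood of a vertex -/
theorem hit (hγ : 0 < γ) (hγ1 : γ ≤ 1) (hB : 1 ≤ B) {x u : V} (hx : 0 < dg G x) (hu : 0 < dg G u)
    {p q h : ℕ} (hpq : 1 ≤ p + q) (hqh : q ≤ h) (hdu : B ^ p * dg G u ≤ dg G x) :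
    (Q G B γ)^[q + 1] (cl G u) x ≤ 2 * (γ⁻¹) ^ (h + 1) / B := by
  have hB0 : 0 < B := by linarith
  have h1 := iter_mul (G := G) (φ := cl G u) hγ hB0 (fun v => cl_nonneg u v) q x
  have h2 := sum_cl hu
  have h3 : γ⁻¹ * (((γ * B)⁻¹) ^ q * ∑ y, cl G u y) ≤ γ⁻¹ * (((γ * B)⁻¹) ^ q * (2 * dg G u)) := by
    apply mul_le_mul_of_nonneg_left _ (by positivity)
    exact mul_le_mul_of_nonneg_left h2 (by positivity)
  have h4 : dg G u ≤ dg G x / B ^ p := by
    rw [le_div_iff₀ (by positivity), mul_comm]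
    exact hdu
  have h5 : γ⁻¹ * (((γ * B)⁻¹) ^ q * (2 * dg G u)) ≤
      γ⁻¹ * (((γ * B)⁻¹) ^ q * (2 * (dg G x / B ^ p))) := by
    apply mul_le_mul_of_nonneg_left _ (by positivity)
    apply mul_le_mul_of_nonneg_left _ (by positivity)
    linarith
  have h6 : γ⁻¹ * (((γ * B)⁻¹) ^ q * (2 * (dg G x / B ^ p))) =
      dg G x * (2 * (γ⁻¹) ^ (q + 1) * (B⁻¹) ^ (p + q)) := by
    rw [mul_inv, mul_pow, pow_succ γ⁻¹ q, pow_add B⁻¹ p q, inv_pow B p, div_eq_mul_inv]
    ring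
  have h7 : (B⁻¹) ^ (p + q) ≤ (B⁻¹) ^ 1 := by
    apply pow_le_pow_of_le_one (by positivity) _ hpq
    exact inv_le_one_of_one_le₀ hB
  have h8 : (γ⁻¹) ^ (q + 1) ≤ (γ⁻¹) ^ (h + 1) := by
    apply pow_le_pow_right₀ _ (by omega)
    exact (one_le_inv₀ hγ).2 hγ1
  have h9 : dg G x * (2 * (γ⁻¹) ^ (q + 1) * (B⁻¹) ^ (p + q)) ≤
      dg G x * (2 * (γ⁻¹) ^ (h + 1) / B) := by
    apply mul_le_mul_of_nonneg_left _ hx.le
    rw [div_eq_mul_inv]
    rw [pow_one] at h7
    apply mul_le_mul _ h7 (by positivity) (by positivity)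
    linarith
  have h10 : dg G x * (Q G B γ)^[q + 1] (cl G u) x ≤ dg G x * (2 * (γ⁻¹) ^ (h + 1) / B) := by
    calc dg G x * (Q G B γ)^[q + 1] (cl G u) x ≤ _ := h1
      _ ≤ _ := h3
      _ ≤ _ := h5
      _ = _ := h6
      _ ≤ _ := h9
  exact le_of_mul_le_mul_left h10 hx

end Pool.Agent.U797.GC
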